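import Mathlib
import Pool.Agent.TH198.AT.Conv
import Pool.Agent.TH509.AT.F0
import Pool.Agent.TH891.AT.HEAT
import Pool.Agent.TH811.AT.HEATX
import Pool.Agent.TH479.AT.STEIN

/-! # AT-PAR2: the explicit solution of the Parisi equation for a two-step measure -/

set_option autoImplicit false

open MeasureTheory ProbabilityTheory Set Filter Topology

namespace Pool.TH87.AT

open Pool.TH198.AT Pool.TH509.AT

/-! ### the distribution function -/

lemma two_mono {q m t : ℝ} (hqt : q < t) (hm0 : 0 < m) (hm1 : m ≤ 1) : Monotone (two q m t) := by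
  intro a b hab
  unfold two
  split_ifs <;> linarith

lemma two_bd {q m t : ℝ} (hm0 : 0 < m) (hm1 : m ≤ 1) (s : ℝ) :
    0 ≤ two q m t s ∧ two q m t s ≤ 1 := by
  unfold two
  split_ifs <;> constructor <;> linarith

lemma two_cdf {q m t : ℝ} (hqt : q < t) (ht : t ≤ 1) (hm0 : 0 < m) (hm1 : m ≤ 1) :
    IsCdf (two q m t) := by
  refine ⟨(two_mono hqt hm0 hm1).monotoneOn _, fun s _ => two_bd hm0 hm1 s, ?_, fun s _ => ?_⟩
  · unfold two
    rw [if_neg (by linarith), if_neg (by linarith)]
  · rcases lt_or_ge s q with h | h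
    · have e : two q m t =ᶠ[𝓝 s] fun _ => 0 := by
        filter_upwards [Iio_mem_nhds h] with r hr
        unfold two
        rw [if_pos (show r < q from hr)]
      exact (continuousAt_const.congr e.symm).continuousWithinAt
    · rcases lt_or_ge s t with h2 | h2
      · have e : ∀ᶠ r in 𝓝[Ici s] s, two q m t r = m := by
          filter_upwards [self_mem_nhdsWithin, mem_nhdsWithin_of_mem_nhds (Iio_mem_nhds h2)]
            with r hr hr2
          unfold two
          rw [if_neg (not_lt.2 (h.trans hr)), if_pos (show r < t from hr2)]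
        refine (continuousWithinAt_const (b := m)).congr_of_eventuallyEq e ?_
        unfold two
        rw [if_neg (not_lt.2 h), if_pos h2]
      · have e : ∀ᶠ r in 𝓝[Ici s] s, two q m t r = 1 := by
          filter_upwards [self_mem_nhdsWithin] with r hr
          have hr' : s ≤ r := hr
          unfold two
          rw [if_neg (by linarith), if_neg (by linarith)]
        refine (continuousWithinAt_const (b := (1 : ℝ))).congr_of_eventuallyEq e ?_
        unfold two
        rw [if_neg (by linarith), if_neg (by linarith)]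

/-! ### uniform formulas -/

/-- the time variable of the Cole–Hopf function -/
noncomputable def ww (β q t r : ℝ) : ℝ := 2 * β ^ 2 * max 0 (t - max r q)

lemma ww_nonneg (β q t r : ℝ) : 0 ≤ ww β q t r :=
  mul_nonneg (by positivity) (le_max_left _ _)

lemma ww_cont (β q t : ℝ) : Continuous (ww β q t) := by
  unfold ww
  fun_prop

lemma ww_lo {β q t r : ℝ} (hqt : q < t) (h : r ≤ q) : ww β q t r = 2 * β ^ 2 * (t - q) := by
  unfold ww
  rw [max_eq_right h, max_eq_right (by linarith)]

lemma ww_mid {β q t r : ℝ} (h : q ≤ r) (h2 : r ≤ t) : ww β q t r = 2 * β ^ 2 * (t - r) := by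
  unfold ww
  rw [max_eq_left h, max_eq_right (by linarith)]

lemma ww_hi {β q t r : ℝ} (h : q ≤ r) (h2 : t ≤ r) : ww β q t r = 0 := by
  unfold ww
  rw [max_eq_left h, max_eq_left (by linarith), mul_zero]

/-- heat extension with moving time of the Cole–Hopf function -/
noncomputable def hw (g : ℝ → ℝ → ℝ) (β q t r x : ℝ) : ℝ :=
  E1 (fun y => g (ww β q t r) (x + √(2 * β ^ 2 * (q - r)) * y))

lemma hw_of_le (g : ℝ → ℝ → ℝ) {β q t r : ℝ} (h : q ≤ r) (x : ℝ) :
    hw g β q t r x = g (ww β q t r) x := by
  unfold hw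
  rw [sq_zero h]
  simp only [zero_mul, add_zero]
  exact E1_const _

lemma comp_cont {g : ℝ → ℝ → ℝ}
    (hg : ContinuousOn (fun p : ℝ × ℝ => g p.1 p.2) (Ici 0 ×ˢ univ)) {X : Type*}
    [TopologicalSpace X] {a b : X → ℝ} (ha : Continuous a) (hb : Continuous b)
    (h0 : ∀ p, 0 ≤ a p) : Continuous fun p => g (a p) (b p) := by
  have h1 : Continuous fun p => ((a p, b p) : ℝ × ℝ) := ha.prodMk hb
  exact hg.comp_continuous h1 fun p => ⟨h0 p, mem_univ _⟩

lemma hw_cont {g : ℝ → ℝ → ℝ}
    (hg : ContinuousOn (fun p : ℝ × ℝ => g p.1 p.2) (Ici 0 ×ˢ univ)) {C : ℝ}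
    (hC : ∀ w x : ℝ, 0 ≤ w → |g w x| ≤ C) (β q t : ℝ) :
    Continuous (fun p : ℝ × ℝ => hw g β q t p.1 p.2) := by
  unfold hw E1
  refine continuous_of_dominated (bound := fun _ => C) (fun p => ?_) (fun p => ?_) ?_ ?_
  · exact (comp_cont hg continuous_const (by fun_prop) fun _ => ww_nonneg _ _ _ _).aestronglyMeasurable
  · refine Filter.Eventually.of_forall fun y => ?_
    rw [Real.norm_eq_abs]
    exact hC _ _ (ww_nonneg _ _ _ _)
  · exact integrable_const C
  · refine Filter.Eventually.of_forall fun y => ?_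
    refine comp_cont hg ((ww_cont β q t).comp continuous_fst) ?_ fun _ => ww_nonneg _ _ _ _
    fun_prop


theorem t_PAR2_of (hH : St_HEAT) (hX : St_HEATX) (hCH : St_CH) : St_PAR2 := by
  intro β q m t hβ hq0 hqt ht hm0 hm1
  refine ⟨two_cdf hqt ht hm0 hm1, ?_⟩
  obtain ⟨Ux, Uxx, hd, hdw, hcU, hcx, hcxx, hbd, h00⟩ := hCH m hm0 hm1
  have hbx : ∀ w x : ℝ, 0 ≤ w → |Ux w x| ≤ 1 := fun w x h => (hbd w x h).1
  have hbxx : ∀ w x : ℝ, 0 ≤ w → |Uxx w x| ≤ 3 := fun w x h => (hbd w x h).2
  have cA : Continuous (fun p : ℝ × ℝ => hw Uxx β q t p.1 p.2) := hw_cont hcxx hbxx β q t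
  have cB : Continuous (fun p : ℝ × ℝ => hw Ux β q t p.1 p.2) := hw_cont hcx hbx β q t
  have cx : ∀ w, 0 ≤ w → Continuous (Ux w) := fun w hw0 =>
    comp_cont hcx continuous_const continuous_id fun _ => hw0
  have cxx : ∀ w, 0 ≤ w → Continuous (Uxx w) := fun w hw0 =>
    comp_cont hcxx continuous_const continuous_id fun _ => hw0
  have hc2b : ∀ w, 0 ≤ w → C2b (UH m w) (Ux w) (Uxx w) := fun w hw0 =>
    ⟨fun x => (hd w x hw0).1, fun x => (hd w x hw0).2, cxx w hw0, 3, fun x =>
      ⟨(hbx w x hw0).trans (by norm_num), hbxx w x hw0⟩⟩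
  have hW0 : 0 ≤ 2 * β ^ 2 * (t - q) := by
    have : 0 < t - q := by linarith
    positivity
  have f2hi : ∀ s x, t ≤ s → f2 β q m t s x = Real.log (Real.cosh x) + β ^ 2 * (1 - s) := by
    intro s x h
    unfold f2
    rw [if_pos h]
  have f2mid : ∀ s x, q ≤ s → s ≤ t →
      f2 β q m t s x = UH m (2 * β ^ 2 * (t - s)) x + β ^ 2 * (1 - t) := by
    intro s x h h2
    unfold f2
    rcases h2.lt_or_eq with h3 | h3
    · rw [if_neg (not_le.2 h3), if_pos h]
    · rw [if_pos h3.ge, h3, sub_self, mul_zero, (h00 x).1]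
  have f2lo : ∀ s x, s ≤ q → f2 β q m t s x =
      E1 (fun y => UH m (2 * β ^ 2 * (t - q)) (x + √(2 * β ^ 2 * (q - s)) * y)) +
        β ^ 2 * (1 - t) := by
    intro s x h
    rcases h.lt_or_eq with h3 | h3
    · unfold f2
      rw [if_neg (by linarith), if_neg (by linarith)]
    · rw [f2mid s x h3.ge (by linarith), sq_zero h3.ge]
      simp only [zero_mul, add_zero]
      rw [E1_const, h3]
  have f2eq : ∀ s x, f2 β q m t s x = hw (UH m) β q t s x + β ^ 2 * (1 - max s t) := by
    intro s x
    rcases le_or_gt s q with h | h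
    · rw [f2lo s x h, max_eq_right (by linarith)]
      unfold hw
      rw [ww_lo hqt h]
    · rw [hw_of_le _ h.le]
      rcases le_or_gt s t with h2 | h2
      · rw [f2mid s x h.le h2, ww_mid h.le h2, max_eq_right h2]
      · rw [f2hi s x h2.le, ww_hi h.le h2.le, max_eq_left h2.le, (h00 x).1]
  refine ⟨hw Ux β q t, hw Uxx β q t, ?_, cB.continuousOn, cA.continuousOn, ⟨3, ?_⟩, ?_⟩
  · intro s _ x
    have hw0 := ww_nonneg β q t s
    constructor
    · have h1 := hX (UH m (ww β q t s)) (Ux (ww β q t s)) 1 (fun x => (hd _ x hw0).1)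
        (cx _ hw0) (fun x => hbx _ x hw0) (√(2 * β ^ 2 * (q - s))) x
      have e : f2 β q m t s = fun x => hw (UH m) β q t s x + β ^ 2 * (1 - max s t) := by
        funext x
        exact f2eq s x
      rw [e]
      exact h1.add_const _
    · exact hX (Ux (ww β q t s)) (Uxx (ww β q t s)) 3 (fun x => (hd _ x hw0).2)
        (cxx _ hw0) (fun x => hbxx _ x hw0) (√(2 * β ^ 2 * (q - s))) x
  · intro s _ x
    have hw0 := ww_nonneg β q t s
    exact ⟨(E1_abs_le fun y => hbx _ _ hw0).trans (by norm_num), E1_abs_le fun y => hbxx _ _ hw0⟩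
  · intro s hs x
    have hcr : Continuous fun r : ℝ => ((r, x) : ℝ × ℝ) := by fun_prop
    have cAr : Continuous fun r => hw Uxx β q t r x := cA.comp hcr
    have cBr : Continuous fun r => hw Ux β q t r x := cB.comp hcr
    -- continuity in time
    have hform : ∀ r, f2 β q m t r x = UH m (ww β q t r) x - UH m (2 * β ^ 2 * (t - q)) x +
        E1 (fun y => UH m (2 * β ^ 2 * (t - q)) (x + √(2 * β ^ 2 * (q - r)) * y)) +
          β ^ 2 * (1 - max r t) := by
      intro r
      rcases le_or_gt r q with h | h
      · rw [f2lo r x h, ww_lo hqt h, max_eq_right (by linarith)]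
        ring
      · rw [f2eq, hw_of_le _ h.le, sq_zero h.le]
        simp only [zero_mul, add_zero]
        rw [E1_const]
        ring
    have hcont : Continuous fun r => f2 β q m t r x := by
      have e : (fun r => f2 β q m t r x) = fun r => UH m (ww β q t r) x -
          UH m (2 * β ^ 2 * (t - q)) x +
          E1 (fun y => UH m (2 * β ^ 2 * (t - q)) (x + √(2 * β ^ 2 * (q - r)) * y)) +
          β ^ 2 * (1 - max r t) := funext hform
      rw [e]
      have c1 : Continuous fun r => UH m (ww β q t r) x :=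
        comp_cont (g := UH m) (a := ww β q t) (b := fun _ => x) hcU (ww_cont β q t)
          continuous_const fun r => ww_nonneg β q t r
      have c2 : Continuous fun r =>
          E1 (fun y => UH m (2 * β ^ 2 * (t - q)) (x + √(2 * β ^ 2 * (q - r)) * y)) := by
        have h1 := (hH _ _ _ (hc2b _ hW0)).2
        have h2 : Continuous fun r : ℝ => ((x, 2 * β ^ 2 * (q - r)) : ℝ × ℝ) := by fun_prop
        have h3 := h1.comp h2
        simpa only [Function.comp_def] using h3
      have c3 : Continuous fun r : ℝ => β ^ 2 * (1 - max r t) := by fun_prop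
      have c4 : Continuous fun _ : ℝ => UH m (2 * β ^ 2 * (t - q)) x := continuous_const
      exact ((c1.sub c4).add c2).add c3
    -- the derivative in time
    have hder : ∀ r ∈ Ioo s 1 \ {q, t}, HasDerivAt (fun r => f2 β q m t r x)
        (-(β ^ 2 * (hw Uxx β q t r x + two q m t r * hw Ux β q t r x ^ 2))) r := by
      intro r hr
      have hrq : r ≠ q := fun h => hr.2 (by rw [h]; simp)
      have hrt : r ≠ t := fun h => hr.2 (by rw [h]; simp)
      rcases lt_or_gt_of_ne hrq with h | h
      · have e : (fun r => f2 β q m t r x) =ᶠ[𝓝 r] fun r =>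
            E1 (fun y => UH m (2 * β ^ 2 * (t - q)) (x + √(2 * β ^ 2 * (q - r)) * y)) +
              β ^ 2 * (1 - t) := by
          filter_upwards [Iio_mem_nhds h] with a ha
          exact f2lo a x (le_of_lt ha)
        refine HasDerivAt.congr_of_eventuallyEq ?_ e
        have hv : 0 < 2 * β ^ 2 * (q - r) := by
          have : 0 < q - r := by linarith
          positivity
        have h1 := (hH _ _ _ (hc2b _ hW0)).1 x (2 * β ^ 2 * (q - r)) hv
        have h2 : HasDerivAt (fun r : ℝ => 2 * β ^ 2 * (q - r)) (-(2 * β ^ 2)) r := by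
          have := ((hasDerivAt_id r).const_sub q).const_mul (2 * β ^ 2)
          simpa using this
        have h3 := (h1.comp r h2).add_const (β ^ 2 * (1 - t))
        refine h3.congr_deriv ?_
        unfold two hw
        rw [if_pos h, zero_mul, add_zero, ww_lo hqt h.le]
        ring
      · rcases lt_or_gt_of_ne hrt with h2 | h2
        · have e : (fun r => f2 β q m t r x) =ᶠ[𝓝 r] fun r =>
              UH m (2 * β ^ 2 * (t - r)) x + β ^ 2 * (1 - t) := by
            filter_upwards [Ioo_mem_nhds h h2] with a ha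
            exact f2mid a x ha.1.le ha.2.le
          refine HasDerivAt.congr_of_eventuallyEq ?_ e
          have hv : 0 < 2 * β ^ 2 * (t - r) := by
            have : 0 < t - r := by linarith
            positivity
          have h3 : HasDerivAt (fun r : ℝ => 2 * β ^ 2 * (t - r)) (-(2 * β ^ 2)) r := by
            have := ((hasDerivAt_id r).const_sub t).const_mul (2 * β ^ 2)
            simpa using this
          have h4 := ((hdw (2 * β ^ 2 * (t - r)) x hv).comp r h3).add_const (β ^ 2 * (1 - t))
          refine h4.congr_deriv ?_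
          rw [hw_of_le _ h.le, hw_of_le _ h.le, ww_mid h.le h2.le]
          unfold two
          rw [if_neg (not_lt.2 h.le), if_pos h2]
          ring
        · have e : (fun r => f2 β q m t r x) =ᶠ[𝓝 r] fun r =>
              Real.log (Real.cosh x) + β ^ 2 * (1 - r) := by
            filter_upwards [Ioi_mem_nhds h2] with a ha
            exact f2hi a x (le_of_lt ha)
          refine HasDerivAt.congr_of_eventuallyEq ?_ e
          have h3 : HasDerivAt (fun r : ℝ => Real.log (Real.cosh x) + β ^ 2 * (1 - r))
              (-(β ^ 2)) r := by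
            have := (((hasDerivAt_id r).const_sub 1).const_mul (β ^ 2)).const_add
              (Real.log (Real.cosh x))
            simpa using this
          refine h3.congr_deriv ?_
          rw [hw_of_le _ h.le, hw_of_le _ h.le, ww_hi h.le h2.le, (h00 x).2.1, (h00 x).2.2]
          unfold two
          rw [if_neg (not_lt.2 h.le), if_neg (not_lt.2 h2.le), one_mul, sech_tanh, mul_one]
    have hint : IntervalIntegrable
        (fun r => -(β ^ 2 * (hw Uxx β q t r x + two q m t r * hw Ux β q t r x ^ 2)))
        volume s 1 := by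
      have i1 : IntervalIntegrable (fun r => hw Uxx β q t r x) volume s 1 :=
        cAr.intervalIntegrable _ _
      have i2 : IntervalIntegrable (two q m t) volume s 1 :=
        (two_mono hqt hm0 hm1).intervalIntegrable
      have i3 := i2.mul_continuousOn ((cBr.pow 2).continuousOn (s := uIcc s 1))
      exact ((i1.add i3).const_mul (β ^ 2)).neg
    have hftc := integral_eq_of_hasDerivAt_off_countable_of_le (fun r => f2 β q m t r x)
      (fun r => -(β ^ 2 * (hw Uxx β q t r x + two q m t r * hw Ux β q t r x ^ 2))) hs.2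
      ((Set.countable_singleton t).insert q) hcont.continuousOn hder hint
    rw [intervalIntegral.integral_neg] at hftc
    have h1 : f2 β q m t 1 x = Real.log (Real.cosh x) := by
      rw [f2hi 1 x ht]
      ring
    simp only [h1] at hftc
    linarith

theorem t_PAR2 (hCH : St_CH) : St_PAR2 :=
  t_PAR2_of (Pool.TH198.AT.t_HEAT Pool.TH479.AT.t_STEIN) Pool.TH811.AT.t_HEATX hCH

end Pool.TH87.AT
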